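import Pool.Agent.L5helper28.CA.Cls2

/-!
# The number of the classes of a system on a product
-/

set_option autoImplicit false
set_option linter.unusedSectionVars false

open CategoryTheory AlgebraicGeometry TensorProduct

universe u v

namespace Pool.Agent.L5helper28.CA

open Module
open Pool.Agent.H914 Pool.Agent.H914.VarClass Pool.Agent.H914.VarClass.Obj
  Pool.Agent.H914.WeilCohomology
open Pool.Agent.Y121 Pool.Agent.Y121.AHS Pool.Agent.N996 Pool.Agent.N996.FP
open Pool.Agent.L5helper28.IF Pool.Agent.W552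
open Pool.Agent.Y133.Half (pw ClassPred prod_hom_ext)

noncomputable section

variable {k : Type u} [Field k] {𝒱 : VarClass k} {ops : CycleOps 𝒱} {T : HodgeTheory ops}
  {P Y X : 𝒱.Obj} {Q : ClassPred T.W}

/-- the map `v ↦ ∑ a_i × v_i` -/
def crossMap {N : ℕ} (a : Fin N → T.W.H P) : (Fin N → T.W.H Y) →ₗ[T.W.K] T.W.H (P.prod Y) :=
  ∑ i, (LinearMap.mulLeft T.W.K (T.W.map (fst P Y) (a i))) ∘ₗ (T.W.map (snd P Y)).toLinearMap ∘ₗ
    LinearMap.proj i

theorem crossMap_apply {N : ℕ} (a : Fin N → T.W.H P) (v : Fin N → T.W.H Y) :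
    crossMap a v = ∑ i, T.W.map (fst P Y) (a i) * T.W.map (snd P Y) (v i) := by
  rw [crossMap, LinearMap.sum_apply]
  rfl

theorem push_cross {N : ℕ} {a b : Fin N → T.W.H P} (hb : ∀ i, b i ∈ spH T P)
    (hab : ∀ i j, T.W.tr P (a i * b j) = if i = j then 1 else 0) (v : Fin N → T.W.H Y)
    (j : Fin N) :
    T.W.push (snd P Y) (crossMap a v * T.W.map (fst P Y) (b j)) = v j := by
  rw [crossMap_apply, Finset.sum_mul, map_sum, Finset.sum_eq_single j]
  · rw [mul_assoc, ← spH_comm (hb j) (fst P Y) (T.W.map (snd P Y) (v j)), ← mul_assoc,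
      ← map_mul, T.W.push_snd, hab, if_pos rfl, one_smul]
  · intro i _ hij
    rw [mul_assoc, ← spH_comm (hb j) (fst P Y) (T.W.map (snd P Y) (v i)), ← mul_assoc,
      ← map_mul, T.W.push_snd, hab, if_neg hij, zero_smul]
  · intro h0
    exact absurd (Finset.mem_univ _) h0

theorem cross_inj {N : ℕ} {a b : Fin N → T.W.H P} (hb : ∀ i, b i ∈ spH T P)
    (hab : ∀ i j, T.W.tr P (a i * b j) = if i = j then 1 else 0) :
    Function.Injective (crossMap (Y := Y) a) := by
  rw [injective_iff_map_eq_zero]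
  intro v hv
  funext j
  rw [← push_cross hb hab v j, hv, zero_mul, map_zero]
  rfl

theorem card_dual {N : ℕ} {a b : Fin N → T.W.H P} (ha : ∀ i, a i ∈ spH T P)
    (hab : ∀ i j, T.W.tr P (a i * b j) = if i = j then 1 else 0)
    (hspan : ∀ x ∈ spH T P, x ∈ Submodule.span T.W.K (Set.range a)) :
    finrank T.W.K (spH T P) = N := by
  have hli : LinearIndependent T.W.K a := by
    rw [Fintype.linearIndependent_iff]
    intro g hg j
    have h1 : T.W.tr P ((∑ i, g i • a i) * b j) = g j := by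
      rw [Finset.sum_mul, map_sum, Finset.sum_eq_single j]
      · rw [smul_mul_assoc, map_smul, hab, if_pos rfl, smul_eq_mul, mul_one]
      · intro i _ hij
        rw [smul_mul_assoc, map_smul, hab, if_neg hij, smul_zero]
      · intro h0
        exact absurd (Finset.mem_univ _) h0
    rw [← h1, hg, zero_mul, map_zero]
  have h2 : spH T P = Submodule.span T.W.K (Set.range a) := by
    refine le_antisymm hspan (Submodule.span_le.2 ?_)
    rintro x ⟨i, rfl⟩
    exact ha i
  rw [h2, finrank_span_eq_card hli, Fintype.card_fin]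

/-- **The number of the classes on a product.** -/
theorem dim_prod (hQ : ∀ (X : 𝒱.Obj) (j : ℕ) (c : T.W.H X), Q.P X j c → IsHodge T X j c)
    (hs : Spl T P Y) (hP : AllIn T Q P) :
    finrank T.W.K (Q.sp (P.prod Y)) = finrank T.W.K (spH T P) * finrank T.W.K (Q.sp Y) := by
  classical
  obtain ⟨N, a, b, ha, hb, hab, hspan⟩ := exists_dual_hodge T P
  have hPs : spH T P ≤ Q.sp P := by
    refine Submodule.span_le.2 ?_
    rintro x ⟨j, hj⟩
    exact ClassPred.sp_of (hP j x hj)
  rw [card_dual ha hab hspan]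
  let G : (Fin N → Q.sp Y) →ₗ[T.W.K] T.W.H (P.prod Y) :=
    crossMap a ∘ₗ (LinearMap.pi fun i => (Q.sp Y).subtype ∘ₗ LinearMap.proj i)
  have hG : ∀ v, G v = ∑ i, T.W.map (fst P Y) (a i) * T.W.map (snd P Y) (v i : T.W.H Y) :=
    fun v => crossMap_apply a _
  have hGi : Function.Injective G := by
    intro v w h
    have h1 := cross_inj (Y := Y) hb hab h
    funext i
    exact Subtype.ext (congrFun h1 i)
  have hGr : LinearMap.range G = Q.sp (P.prod Y) := by
    apply le_antisymm
    · rintro _ ⟨v, rfl⟩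
      rw [hG]
      refine sum_mem fun i _ => ?_
      have h4 : ∀ x ∈ Q.sp P, ∀ y ∈ Q.sp Y, T.W.map (fst P Y) x * T.W.map (snd P Y) y ∈
          Q.sp (P.prod Y) := by
        intro x hx y hy
        refine ClassPred.sp_ind (Q := Q)
          (q := fun x => T.W.map (fst P Y) x * T.W.map (snd P Y) y ∈ Q.sp (P.prod Y)) ?_
          (by rw [map_zero, zero_mul]; exact zero_mem _)
          (fun x x' hx hy => by rw [map_add, add_mul]; exact add_mem hx hy) hx
        intro l x hx
        refine ClassPred.sp_ind (Q := Q)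
          (q := fun y => T.W.map (fst P Y) x * T.W.map (snd P Y) y ∈ Q.sp (P.prod Y)) ?_
          (by rw [map_zero, mul_zero]; exact zero_mem _)
          (fun x x' hx hy => by rw [map_add, mul_add]; exact add_mem hx hy) hy
        intro m y hy
        exact ClassPred.sp_of (Q.mul (Q.map _ hx) (Q.map _ hy))
      exact h4 _ (hPs (ha i)) _ (v i).2
    · intro c hc
      have h1 := split_in hQ hs hP hc
      have hQH : Q.sp P ≤ spH T P := by
        intro x hx
        refine ClassPred.sp_ind (Q := Q) (q := fun c => c ∈ spH T P) ?_ (zero_mem _)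
          (fun x y hx hy => add_mem hx hy) hx
        intro j x hx
        exact Submodule.subset_span ⟨j, hQ _ _ _ hx⟩
      refine Submodule.span_le.2 ?_ h1
      rintro _ ⟨x, hx, y, hy, rfl⟩
      obtain ⟨r, hr⟩ := (Submodule.mem_span_range_iff_exists_fun T.W.K).1
        (hspan x (hQH hx))
      refine ⟨fun i => ⟨r i • y, Submodule.smul_mem _ _ hy⟩, ?_⟩
      rw [hG, ← hr]
      simp only [map_sum, map_smul, Finset.sum_mul, smul_mul_assoc, mul_smul_comm]
  rw [← hGr, LinearMap.finrank_range_of_inj hGi, Module.finrank_pi_fintype, Finset.sum_const,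
    Finset.card_univ, Fintype.card_fin, smul_eq_mul]

theorem sp_map {A B : 𝒱.Obj} (f : A ⟶ B) {c : T.W.H B} (hc : c ∈ Q.sp B) :
    T.W.map f c ∈ Q.sp A := by
  refine ClassPred.sp_ind (Q := Q) (q := fun c => T.W.map f c ∈ Q.sp A) ?_
    (by rw [map_zero]; exact zero_mem _) (fun x y hx hy => by rw [map_add]; exact add_mem hx hy) hc
  intro l x hx
  exact ClassPred.sp_of (Q.map _ hx)

theorem dim_iso {A B : 𝒱.Obj} (f : A ⟶ B) (g : B ⟶ A) (hfg : f ≫ g = 𝟙 A) (hgf : g ≫ f = 𝟙 B) :
    finrank T.W.K (Q.sp A) = finrank T.W.K (Q.sp B) := by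
  have h1 : ∀ x : T.W.H A, T.W.map f (T.W.map g x) = x := fun x => by
    rw [← T.W.map_comp, hfg, T.W.map_id]
  have h2 : ∀ x : T.W.H B, T.W.map g (T.W.map f x) = x := fun x => by
    rw [← T.W.map_comp, hgf, T.W.map_id]
  exact LinearEquiv.finrank_eq
    { toFun := fun x => ⟨T.W.map g x.1, sp_map g x.2⟩
      map_add' := fun x y => Subtype.ext (map_add _ _ _)
      map_smul' := fun r x => Subtype.ext (map_smul _ _ _)
      invFun := fun x => ⟨T.W.map f x.1, sp_map f x.2⟩
      left_inv := fun x => Subtype.ext (h1 _)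
      right_inv := fun x => Subtype.ext (h2 _) }

theorem dim_pw (hQ : ∀ (X : 𝒱.Obj) (j : ℕ) (c : T.W.H X), Q.P X j c → IsHodge T X j c) (n : ℕ)
    (hs : Spl T (pw P n) (pw Y n)) (hP : AllIn T Q (pw P n)) :
    finrank T.W.K (Q.sp (pw (P.prod Y) n)) =
      finrank T.W.K (spH T (pw P n)) * finrank T.W.K (Q.sp (pw Y n)) := by
  rw [dim_iso (pf P Y n) (pg P Y n) (pf_pg P Y n) (pg_pf P Y n)]
  exact dim_prod hQ hs hP

end

end Pool.Agent.L5helper28.CA
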